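import Pool.Agent.H304R2.EC.Theta
import Pool.Agent.H304R2.EC.Pair

set_option autoImplicit false

/-!
Project QT, N1: functional equation of the theta series of `y² = x³ - 4x` twisted by an odd primitive
character modulus.
-/

open Finset Filter Topology HurwitzZeta

namespace Pool.Agent.Y153.QT

open Pool.Agent.H304R2.EC

/-- `(2/k)` -/
noncomputable def j2 (k : ℕ) : ℂ := ((ZMod.χ₈ (k : ZMod 8) : ℤ) : ℂ)

theorem j2_norm (k : ℕ) : ‖j2 k‖ ≤ 1 := by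
  unfold j2
  rw [ZMod.χ₈_nat_eq_if_mod_eight]
  split_ifs <;> simp

theorem natAbs_int (m t : ℤ) : (((m ^ 2 + 4 * t ^ 2).natAbs : ℕ) : ℤ) = m ^ 2 + 4 * t ^ 2 := by
  rw [Int.natCast_natAbs, abs_of_nonneg (by positivity)]

theorem j2_val (m t : ℤ) (hm : m % 2 = 1) : j2 (m ^ 2 + 4 * t ^ 2).natAbs = (-1) ^ t.natAbs := by
  set N := (m ^ 2 + 4 * t ^ 2).natAbs with hN
  have hN' : (N : ℤ) = m ^ 2 + 4 * t ^ 2 := natAbs_int m t
  obtain ⟨a, ha⟩ : ∃ a, m = 2 * a + 1 := ⟨m / 2, by omega⟩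
  obtain ⟨b, hb⟩ := Int.even_mul_succ_self a
  have hm2 : m ^ 2 = 8 * b + 1 := by
    rw [ha]
    linear_combination 4 * hb
  unfold j2
  rw [ZMod.χ₈_nat_eq_if_mod_eight]
  rcases Int.even_or_odd t with ht | ht
  · obtain ⟨s, hs⟩ := ht
    have h1 : m ^ 2 + 4 * t ^ 2 = 8 * (b + 2 * s ^ 2) + 1 := by
      rw [hm2, hs]; ring
    rw [h1] at hN'
    have h2 : N % 2 ≠ 0 := by omega
    have h3 : N % 8 = 1 := by omega
    rw [if_neg h2, if_pos (Or.inl h3)]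
    have h4 : Even t.natAbs := by
      rw [Int.natAbs_even]
      exact ⟨s, hs⟩
    rw [h4.neg_one_pow]
    simp
  · obtain ⟨s, hs⟩ := ht
    have h1 : m ^ 2 + 4 * t ^ 2 = 8 * (b + 2 * s ^ 2 + 2 * s) + 5 := by
      rw [hm2, hs]; ring
    rw [h1] at hN'
    have h2 : N % 2 ≠ 0 := by omega
    have h3 : ¬ (N % 8 = 1 ∨ N % 8 = 7) := by omega
    rw [if_neg h2, if_neg h3]
    have h4 : Odd t.natAbs := by
      rw [Int.natAbs_odd]
      exact ⟨s, hs⟩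
    rw [h4.neg_one_pow]
    simp

theorem neg_one_sq (t : ℤ) : (-1 : ℂ) ^ t.natAbs * (-1) ^ t.natAbs = 1 := by
  rw [← mul_pow]
  norm_num

theorem j2_bound {Φ : ℕ → ℂ} {C δ : ℝ} (hΦ : ∀ k : ℕ, ‖Φ k‖ ≤ C * Real.exp (-δ * k)) (k : ℕ) :
    ‖j2 k * Φ k‖ ≤ C * Real.exp (-δ * k) := by
  rw [norm_mul]
  calc ‖j2 k‖ * ‖Φ k‖ ≤ 1 * ‖Φ k‖ := mul_le_mul_of_nonneg_right (j2_norm k) (norm_nonneg _)
    _ = ‖Φ k‖ := one_mul _
    _ ≤ _ := hΦ k

theorem sum_all (Φ : ℕ → ℂ) (C δ : ℝ) (hδ : 0 < δ) (hΦ : ∀ k : ℕ, ‖Φ k‖ ≤ C * Real.exp (-δ * k)) :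
    HasSum (fun p : ℤ × ℤ => if p.1 % 4 = 1 then
        (p.1 : ℂ) * Φ (p.1 ^ 2 + 4 * p.2 ^ 2).natAbs else 0)
      (∑' k : ℕ, (an k : ℂ) * (j2 k * Φ k)) := by
  have h := sum_primary (fun k => j2 k * Φ k) C δ hδ (j2_bound hΦ)
  refine h.congr_fun fun p => ?_
  split_ifs with h1
  · rw [j2_val p.1 p.2 (by omega)]
    have := neg_one_sq p.2
    linear_combination (-(p.1 : ℂ) * Φ (p.1 ^ 2 + 4 * p.2 ^ 2).natAbs) * this
  · rfl

/-- the map `(m, t) ↦ (m, 2 t)` -/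
def dbl (p : ℤ × ℤ) : ℤ × ℤ := (p.1, 2 * p.2)

theorem dbl_inj : Function.Injective dbl := by
  rintro ⟨a, b⟩ ⟨c, d⟩ h
  simp only [dbl, Prod.mk.injEq] at h
  obtain ⟨h1, h2⟩ := h
  ext
  · exact h1
  · simp only; omega

theorem sum_even (Φ : ℕ → ℂ) (C δ : ℝ) (hδ : 0 < δ) (hΦ : ∀ k : ℕ, ‖Φ k‖ ≤ C * Real.exp (-δ * k)) :
    HasSum (fun p : ℤ × ℤ => if p.1 % 2 = 1 ∧ p.2 % 2 = 0 then
        (p.1 : ℂ) * ((ZMod.χ₄ (p.1 : ZMod 4) : ℤ) : ℂ) * Φ (p.1 ^ 2 + p.2 ^ 2).natAbs else 0)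
      (2 * ∑' k : ℕ, (an k : ℂ) * (j2 k * Φ k)) := by
  have h1 := sum_all Φ C δ hδ hΦ
  have h2 := ((Equiv.neg ℤ).prodCongr (Equiv.refl ℤ)).hasSum_iff.mpr h1
  have h3 := h1.add h2
  rw [← two_mul] at h3
  rw [← dbl_inj.hasSum_iff]
  · refine h3.congr_fun ?_
    rintro ⟨m, t⟩
    have hN : (m ^ 2 + (2 * t) ^ 2).natAbs = (m ^ 2 + 4 * t ^ 2).natAbs := by
      congr 1
      ring
    have hN2 : ((-m) ^ 2 + 4 * t ^ 2).natAbs = (m ^ 2 + 4 * t ^ 2).natAbs := by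
      congr 1
      ring
    simp only [Function.comp_apply, dbl, Equiv.prodCongr_apply, Prod.map, Equiv.neg_apply,
      Equiv.refl_apply, hN, hN2]
    by_cases c1 : m % 4 = 1
    · have c2 : ¬ (-m % 4 = 1) := by omega
      have c3 : m % 2 = 1 ∧ 2 * t % 2 = 0 := by omega
      rw [if_pos c1, if_neg c2, if_pos c3, s4_chi _ c3.1, if_pos c1]
      ring
    · by_cases c2 : -m % 4 = 1
      · have c3 : m % 2 = 1 ∧ 2 * t % 2 = 0 := by omega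
        rw [if_neg c1, if_pos c2, if_pos c3, s4_chi _ c3.1, if_neg c1]
        push_cast
        ring
      · have c3 : ¬ (m % 2 = 1 ∧ 2 * t % 2 = 0) := by omega
        rw [if_neg c1, if_neg c2, if_neg c3]
        ring
  · rintro ⟨n, n'⟩ hx
    rw [if_neg]
    rintro ⟨h5, h6⟩
    simp only at h5 h6
    refine hx ⟨(n, n' / 2), ?_⟩
    refine Prod.ext rfl ?_
    show 2 * (n' / 2) = n'
    omega

/-- the theta series `∑ (2/n) χ(n) a(n) e^{-π n y}` -/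
noncomputable def TE (q : ℕ) (χ : DirichletCharacter ℂ q) (y : ℝ) : ℂ :=
  ∑' n : ℕ, (an n : ℂ) * (j2 n * (χ (n : ZMod q) * (Real.exp (-Real.pi * n * y) : ℂ)))

theorem pt_two (q : ℕ) (hq : 0 < q) (χ : DirichletCharacter ℂ q) (y : ℝ) (m t : ℤ) :
    (if m % 4 = 1 then (m : ℂ) *
      (χ ((m ^ 2 + 4 * t ^ 2).natAbs : ZMod q) *
        (Real.exp (-Real.pi * ((m ^ 2 + 4 * t ^ 2).natAbs : ℕ) * y) : ℂ)) else 0) =
    ∑ r ∈ (range (4 * q)).filter (fun r => r % 4 = 1), ∑ s ∈ range (2 * q),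
      χ ((r ^ 2 + 4 * s ^ 2 : ℕ) : ZMod q) *
        (((if m % ((4 * q : ℕ) : ℤ) = r then (m : ℝ) * Real.exp (-Real.pi * m ^ 2 * y) else 0) *
          (if t % ((2 * q : ℕ) : ℤ) = s then Real.exp (-Real.pi * (4 * t ^ 2) * y) else 0) : ℝ) : ℂ)
      := by
  have h := congrArg (fun z => (-1 : ℂ) ^ t.natAbs * z) (pt_one q hq χ y m t)
  have e1 : (-1 : ℂ) ^ t.natAbs * (if m % 4 = 1 then (-1 : ℂ) ^ t.natAbs * m *
      (χ ((m ^ 2 + 4 * t ^ 2).natAbs : ZMod q) *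
        (Real.exp (-Real.pi * ((m ^ 2 + 4 * t ^ 2).natAbs : ℕ) * y) : ℂ)) else 0) =
      (if m % 4 = 1 then (m : ℂ) *
      (χ ((m ^ 2 + 4 * t ^ 2).natAbs : ZMod q) *
        (Real.exp (-Real.pi * ((m ^ 2 + 4 * t ^ 2).natAbs : ℕ) * y) : ℂ)) else 0) := by
    split_ifs
    · have := neg_one_sq t
      linear_combination ((m : ℂ) *
      (χ ((m ^ 2 + 4 * t ^ 2).natAbs : ZMod q) *
        (Real.exp (-Real.pi * ((m ^ 2 + 4 * t ^ 2).natAbs : ℕ) * y) : ℂ))) * this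
    · rw [mul_zero]
  rw [e1] at h
  rw [h, mul_sum]
  refine sum_congr rfl fun r _ => ?_
  rw [mul_sum]
  refine sum_congr rfl fun s _ => ?_
  by_cases hts : t % ((2 * q : ℕ) : ℤ) = s
  · have e2 : (-1 : ℂ) ^ t.natAbs = (-1) ^ s := by
      have hts' : t = ((2 * q : ℕ) : ℤ) * (t / ((2 * q : ℕ) : ℤ)) + s := by
        have := Int.mul_ediv_add_emod t ((2 * q : ℕ) : ℤ)
        rw [hts] at this
        exact this.symm
      have h1 : Even t.natAbs ↔ Even s := by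
        rw [Int.natAbs_even, hts']
        push_cast
        rw [mul_assoc, Int.even_add, Int.even_coe_nat]
        constructor
        · intro h
          exact h.mp (even_two_mul _)
        · intro h
          exact ⟨fun _ => h, fun _ => even_two_mul _⟩
      rcases Nat.even_or_odd s with h | h
      · rw [h.neg_one_pow, (h1.mpr h).neg_one_pow]
      · have : Odd t.natAbs := by
          rw [← Nat.not_even_iff_odd, h1, Nat.not_even_iff_odd]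
          exact h
        rw [h.neg_one_pow, this.neg_one_pow]
    have e3 : (-1 : ℂ) ^ t.natAbs * (-1) ^ s = 1 := by
      rw [← e2]
      exact neg_one_sq t
    rw [if_pos hts]
    rw [← mul_assoc, ← mul_assoc, e3, one_mul]
  · rw [if_neg hts, mul_zero, Complex.ofReal_zero, mul_zero, mul_zero, mul_zero]

theorem TE_eq (q : ℕ) [NeZero q] (χ : DirichletCharacter ℂ q) (y : ℝ) (hy : 0 < y) :
    TE q χ y = ∑ r ∈ (range (4 * q)).filter (fun r => r % 4 = 1), ∑ s ∈ range (2 * q),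
      χ ((r ^ 2 + 4 * s ^ 2 : ℕ) : ZMod q) *
        (((4 * q * oddKernel (((r : ℝ) / (4 * q) : ℝ) : UnitAddCircle) (16 * q ^ 2 * y)) *
        evenKernel (((s : ℝ) / (2 * q) : ℝ) : UnitAddCircle) (16 * q ^ 2 * y) : ℝ) : ℂ) := by
  have hq : 0 < q := NeZero.pos q
  have h1 := sum_all (fun k => χ (k : ZMod q) * (Real.exp (-Real.pi * k * y) : ℂ)) 1
    (Real.pi * y) (by positivity) (phi_bound q χ y)
  have h2 : HasSum (fun p : ℤ × ℤ => ∑ r ∈ (range (4 * q)).filter (fun r => r % 4 = 1),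
      ∑ s ∈ range (2 * q), χ ((r ^ 2 + 4 * s ^ 2 : ℕ) : ZMod q) *
        (((if p.1 % ((4 * q : ℕ) : ℤ) = r then (p.1 : ℝ) * Real.exp (-Real.pi * p.1 ^ 2 * y) else 0) *
          (if p.2 % ((2 * q : ℕ) : ℤ) = s then Real.exp (-Real.pi * (4 * p.2 ^ 2) * y) else 0) : ℝ) : ℂ))
      (∑ r ∈ (range (4 * q)).filter (fun r => r % 4 = 1), ∑ s ∈ range (2 * q),
      χ ((r ^ 2 + 4 * s ^ 2 : ℕ) : ZMod q) *
        (((4 * q * oddKernel (((r : ℝ) / (4 * q) : ℝ) : UnitAddCircle) (16 * q ^ 2 * y)) *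
        evenKernel (((s : ℝ) / (2 * q) : ℝ) : UnitAddCircle) (16 * q ^ 2 * y) : ℝ) : ℂ)) := by
    apply hasSum_sum
    intro r hr
    apply hasSum_sum
    intro s hs
    rw [mem_filter, mem_range] at hr
    rw [mem_range] at hs
    have h := (Complex.hasSum_ofReal.mpr (hs_pair q hq y hy r s hr.1 hs)).mul_left
      (χ ((r ^ 2 + 4 * s ^ 2 : ℕ) : ZMod q))
    exact h
  have h3 := h1.unique (h2.congr_fun (fun p => (pt_two q hq χ y p.1 p.2)))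
  rw [← h3]
  rfl

theorem TE_dual (q : ℕ) [NeZero q] (χ : DirichletCharacter ℂ q) (y : ℝ) (hy : 0 < y) :
    HasSum (fun p : ℤ × ℤ => (4 * q / (16 * q ^ 2 * y) ^ 2 : ℂ) * (-Complex.I * p.1) *
      (∑ r ∈ (range (4 * q)).filter (fun r => r % 4 = 1), ∑ s ∈ range (2 * q),
        χ ((r ^ 2 + 4 * s ^ 2 : ℕ) : ZMod q) *
          Complex.exp (2 * Real.pi * Complex.I * ((r : ℂ) / (4 * q)) * p.1) *
          Complex.exp (2 * Real.pi * Complex.I * ((s : ℂ) / (2 * q)) * p.2)) *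
      (Real.exp (-Real.pi * (p.1 ^ 2 + p.2 ^ 2) / (16 * q ^ 2 * y)) : ℂ)) (TE q χ y) := by
  have hq : 0 < q := NeZero.pos q
  have hq0 : (0 : ℝ) < q := by exact_mod_cast hq
  have hY : 0 < 16 * (q : ℝ) ^ 2 * y := by positivity
  rw [TE_eq q χ y hy]
  have h2 : HasSum (fun p : ℤ × ℤ => ∑ r ∈ (range (4 * q)).filter (fun r => r % 4 = 1),
      ∑ s ∈ range (2 * q), (χ ((r ^ 2 + 4 * s ^ 2 : ℕ) : ZMod q) *
        (4 * q / (16 * q ^ 2 * y) ^ 2)) *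
        ((-Complex.I * p.1 * Complex.exp (2 * Real.pi * Complex.I * (((r : ℝ) / (4 * q) : ℝ) : ℂ) * p.1) *
        (Real.exp (-Real.pi * p.1 ^ 2 * (1 / (16 * (q : ℝ) ^ 2 * y))) : ℂ)) *
      (Complex.exp (2 * Real.pi * Complex.I * (((s : ℝ) / (2 * q) : ℝ) : ℂ) * p.2) *
        (Real.exp (-Real.pi * p.2 ^ 2 * (1 / (16 * (q : ℝ) ^ 2 * y))) : ℂ))))
      (∑ r ∈ (range (4 * q)).filter (fun r => r % 4 = 1), ∑ s ∈ range (2 * q),
      χ ((r ^ 2 + 4 * s ^ 2 : ℕ) : ZMod q) *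
        (((4 * q * oddKernel (((r : ℝ) / (4 * q) : ℝ) : UnitAddCircle) (16 * q ^ 2 * y)) *
        evenKernel (((s : ℝ) / (2 * q) : ℝ) : UnitAddCircle) (16 * q ^ 2 * y) : ℝ) : ℂ)) := by
    apply hasSum_sum
    intro r _
    apply hasSum_sum
    intro s _
    have h := (dual_pair ((r : ℝ) / (4 * q)) ((s : ℝ) / (2 * q)) _ hY).mul_left
      (χ ((r ^ 2 + 4 * s ^ 2 : ℕ) : ZMod q) * (4 * q / (16 * q ^ 2 * y) ^ 2))
    have e : χ ((r ^ 2 + 4 * s ^ 2 : ℕ) : ZMod q) *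
        (((4 * q * oddKernel (((r : ℝ) / (4 * q) : ℝ) : UnitAddCircle) (16 * q ^ 2 * y)) *
        evenKernel (((s : ℝ) / (2 * q) : ℝ) : UnitAddCircle) (16 * q ^ 2 * y) : ℝ) : ℂ) =
        (χ ((r ^ 2 + 4 * s ^ 2 : ℕ) : ZMod q) * (4 * q / (16 * q ^ 2 * y) ^ 2)) *
        ((sinKernel (((r : ℝ) / (4 * q) : ℝ) : UnitAddCircle) (1 / (16 * (q : ℝ) ^ 2 * y)) : ℂ) *
          (cosKernel (((s : ℝ) / (2 * q) : ℝ) : UnitAddCircle) (1 / (16 * (q : ℝ) ^ 2 * y)) : ℂ)) := by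
      rw [mul_assoc (4 * (q : ℝ)), kernel_fe _ _ _ hY]
      push_cast
      ring
    rw [e]
    exact h
  refine h2.congr_fun ?_
  intro p
  have e : (Real.exp (-Real.pi * ((p.1 : ℝ) ^ 2 + (p.2 : ℝ) ^ 2) / (16 * q ^ 2 * y)) : ℂ) =
      (Real.exp (-Real.pi * p.1 ^ 2 * (1 / (16 * (q : ℝ) ^ 2 * y))) : ℂ) *
      (Real.exp (-Real.pi * p.2 ^ 2 * (1 / (16 * (q : ℝ) ^ 2 * y))) : ℂ) := by
    rw [← Complex.ofReal_mul, ← Real.exp_add]
    congr 2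
    ring
  rw [e, mul_sum, sum_mul]
  apply sum_congr rfl
  intro r _
  rw [mul_sum, sum_mul]
  apply sum_congr rfl
  intro s _
  push_cast
  ring

/-- the discrete Fourier transform without the sign -/
theorem dft2 (q : ℕ) [NeZero q] (hq : Odd q) (χ : DirichletCharacter ℂ q) (hχ : χ.IsPrimitive) :
    ∃ K : ℂ, ‖K‖ = q ∧ ∀ n n' : ℤ,
      ∑ r ∈ (range (4 * q)).filter (fun r => r % 4 = 1), ∑ s ∈ range (2 * q),
        χ ((r ^ 2 + 4 * s ^ 2 : ℕ) : ZMod q) *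
          Complex.exp (2 * Real.pi * Complex.I * ((r : ℂ) / (4 * q)) * n) *
          Complex.exp (2 * Real.pi * Complex.I * ((s : ℂ) / (2 * q)) * n') =
      if Even n' then 2 * Complex.I ^ ((q : ℤ) * n) * K * χ⁻¹ ((n ^ 2 + n' ^ 2 : ℤ) : ZMod q)
      else 0 := by
  obtain ⟨K, hK, hD⟩ := dft q hq χ hχ
  refine ⟨K, hK, fun n n' => ?_⟩
  have hqC : (q : ℂ) ≠ 0 := by exact_mod_cast NeZero.ne q
  have h := hD n (n' + q)
  have hodd : Odd (n' + (q : ℤ)) ↔ Even n' := by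
    have : Odd (q : ℤ) := by exact_mod_cast hq
    rw [Int.odd_add']
    exact ⟨fun h => h.1 this, fun h => ⟨fun _ => h, fun _ => this⟩⟩
  have e2 : ((n ^ 2 + (n' + q) ^ 2 : ℤ) : ZMod q) = ((n ^ 2 + n' ^ 2 : ℤ) : ZMod q) := by
    push_cast
    rw [ZMod.natCast_self, add_zero]
  simp only [hodd, e2] at h
  rw [← h]
  refine sum_congr rfl fun r _ => sum_congr rfl fun s _ => ?_
  have e3 : Complex.exp (2 * Real.pi * Complex.I * ((s : ℂ) / (2 * q)) * ((n' + (q : ℤ) : ℤ) : ℂ)) =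
      (-1) ^ s * Complex.exp (2 * Real.pi * Complex.I * ((s : ℂ) / (2 * q)) * n') := by
    have e4 : (-1 : ℂ) ^ s = Complex.exp (s * (Real.pi * Complex.I)) := by
      rw [Complex.exp_nat_mul, Complex.exp_pi_mul_I]
    rw [e4, ← Complex.exp_add]
    congr 1
    push_cast
    field_simp
    ring
  rw [e3]
  have e5 : (-1 : ℂ) ^ s * (-1) ^ s = 1 := by
    rw [← mul_pow]; norm_num
  linear_combination (-(χ ((r ^ 2 + 4 * s ^ 2 : ℕ) : ZMod q)) *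
          Complex.exp (2 * Real.pi * Complex.I * ((r : ℂ) / (4 * q)) * n) *
          Complex.exp (2 * Real.pi * Complex.I * ((s : ℂ) / (2 * q)) * n')) * e5

theorem TE_level (q : ℕ) [NeZero q] (hq : Odd q) (χ : DirichletCharacter ℂ q)
    (hχ : χ.IsPrimitive) : ∃ K : ℂ, ‖K‖ = q ∧ ∀ y : ℝ, 0 < y →
      TE q χ y = (16 * q / (16 * q ^ 2 * y) ^ 2 : ℂ) * K * TE q χ⁻¹ (1 / (16 * q ^ 2 * y)) := by
  obtain ⟨K, hK, hD⟩ := dft2 q hq χ hχ
  have hq2 : (q : ℤ) % 2 = 1 := by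
    obtain ⟨k, hk⟩ := hq
    omega
  have hqpos : 0 < q := NeZero.pos q
  have hq0 : (0 : ℝ) < q := by exact_mod_cast hqpos
  set x4 : ℂ := ((ZMod.χ₄ ((q : ℤ) : ZMod 4) : ℤ) : ℂ) with hx4
  have hx4n : ‖x4‖ = 1 := by
    have h4 : (q : ℤ) % 4 = 1 ∨ (q : ℤ) % 4 = 3 := by omega
    rcases h4 with h | h
    · rw [hx4, ZMod.χ₄_int_one_mod_four h]; simp
    · rw [hx4, ZMod.χ₄_int_three_mod_four h]; simp
  refine ⟨x4 * K, by rw [norm_mul, hx4n, hK]; simp, ?_⟩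
  intro y hy
  set Y : ℝ := 16 * (q : ℝ) ^ 2 * y with hYdef
  have hY : 0 < Y := by positivity
  have hYc : (16 * (q : ℂ) ^ 2 * y) = (Y : ℂ) := by rw [hYdef]; push_cast; ring
  rw [hYc]
  have h1 := TE_dual q χ y hy
  rw [hYc] at h1
  simp_rw [hD, ← hYdef] at h1
  -- involution
  have h2 := ((Equiv.neg ℤ).prodCongr (Equiv.refl ℤ)).hasSum_iff.mpr h1
  have h3 := h1.add h2
  have h4 := (sum_even (fun k => χ⁻¹ (k : ZMod q) * (Real.exp (-Real.pi * k * (1 / Y)) : ℂ)) 1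
    (Real.pi * (1 / Y)) (by positivity) (phi_bound q χ⁻¹ (1 / Y))).mul_left
    ((16 * q / (Y : ℂ) ^ 2) * (K * x4))
  have h5 := h3.unique (h4.congr_fun ?_)
  · have h6 : (2 : ℂ) * TE q χ y = 2 * ((16 * q / (Y : ℂ) ^ 2) * (x4 * K) *
        TE q χ⁻¹ (1 / Y)) := by
      rw [two_mul, h5]
      unfold TE
      ring
    exact mul_left_cancel₀ two_ne_zero h6
  · rintro ⟨n, n'⟩
    simp only [Function.comp, Equiv.prodCongr_apply, Prod.map, Equiv.neg_apply, Equiv.refl_apply]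
    have hexp : (Real.exp (-Real.pi * (((-n : ℤ) : ℝ) ^ 2 + (n' : ℝ) ^ 2) / Y) : ℂ) =
        (Real.exp (-Real.pi * ((n : ℝ) ^ 2 + (n' : ℝ) ^ 2) / Y) : ℂ) := by
      push_cast
      rw [neg_sq]
    have hsq : (((-n) ^ 2 + n' ^ 2 : ℤ) : ZMod q) = ((n ^ 2 + n' ^ 2 : ℤ) : ZMod q) := by
      rw [neg_sq]
    by_cases hn' : Even n'
    · have hn'2 : n' % 2 = 0 := Int.even_iff.mp hn'
      simp only [if_pos hn']
      rw [hexp, hsq]
      have hnat : (((n ^ 2 + n' ^ 2).natAbs : ℕ) : ℤ) = n ^ 2 + n' ^ 2 := by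
        rw [Int.natCast_natAbs, abs_of_nonneg (by positivity)]
      have e1 : (((n ^ 2 + n' ^ 2).natAbs : ℕ) : ZMod q) = ((n ^ 2 + n' ^ 2 : ℤ) : ZMod q) := by
        rw [← hnat]
        simp
      have e3 : (((n ^ 2 + n' ^ 2).natAbs : ℕ) : ℝ) = (n : ℝ) ^ 2 + n' ^ 2 := by
        calc (((n ^ 2 + n' ^ 2).natAbs : ℕ) : ℝ)
            = ((((n ^ 2 + n' ^ 2).natAbs : ℕ) : ℤ) : ℝ) := (Int.cast_natCast _).symm
          _ = ((n ^ 2 + n' ^ 2 : ℤ) : ℝ) := by rw [hnat]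
          _ = _ := by push_cast; ring
      rcases Int.emod_two_eq_zero_or_one n with hn | hn
      · have hnot : ¬ (n % 2 = 1 ∧ n' % 2 = 0) := fun h => by
          have := h.1
          omega
        simp only [if_neg hnot]
        have hqn : ((q : ℤ) * n) % 2 = 0 := by
          rw [Int.mul_emod, hn]; simp
        have : (q : ℤ) * (-n) = -((q : ℤ) * n) := by ring
        rw [this, I_zpow_neg_even _ hqn]
        push_cast
        ring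
      · have hboth : n % 2 = 1 ∧ n' % 2 = 0 := ⟨hn, hn'2⟩
        simp only [if_pos hboth]
        have hqn : ((q : ℤ) * n) % 2 = 1 := by
          rw [Int.mul_emod, hn, hq2]; norm_num
        have : (q : ℤ) * (-n) = -((q : ℤ) * n) := by ring
        rw [this, I_zpow_neg_odd _ hqn, I_zpow_odd _ hqn]
        have h7 : ((ZMod.χ₄ (((q : ℤ) * n : ℤ) : ZMod 4) : ℤ) : ℂ) =
            x4 * ((ZMod.χ₄ (n : ZMod 4) : ℤ) : ℂ) := by
          rw [Int.cast_mul, map_mul, hx4]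
          push_cast
          ring
        rw [h7, e1, e3]
        have h8 : -Real.pi * ((n : ℝ) ^ 2 + (n' : ℝ) ^ 2) * (1 / Y) =
            -Real.pi * ((n : ℝ) ^ 2 + (n' : ℝ) ^ 2) / Y := by ring
        rw [h8]
        push_cast
        linear_combination (-(16 : ℂ) * q / Y ^ 2 * n * K * x4 *
          ((ZMod.χ₄ (n : ZMod 4) : ℤ) : ℂ) * χ⁻¹ ((n : ZMod q) ^ 2 + (n' : ZMod q) ^ 2) *
          Complex.exp (-Real.pi * ((n : ℂ) ^ 2 + (n' : ℂ) ^ 2) / Y)) * Complex.I_sq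
    · have hnot : ¬ (n % 2 = 1 ∧ n' % 2 = 0) := fun h => hn' (Int.even_iff.mpr h.2)
      simp only [if_neg hn', if_neg hnot]
      ring

theorem TE_fe (q : ℕ) [NeZero q] (hq : Odd q) (χ : DirichletCharacter ℂ q) (hχ : χ.IsPrimitive) :
    ∃ w : ℂ, ‖w‖ = 1 ∧ ∀ x : ℝ, 0 < x →
      TE q χ (1 / (4 * q * x)) = w * (x : ℂ) ^ 2 * TE q χ⁻¹ (x / (4 * q)) := by
  obtain ⟨K, hK, h⟩ := TE_level q hq χ hχ
  have hqpos : 0 < q := NeZero.pos q
  have hq0 : (0 : ℝ) < q := by exact_mod_cast hqpos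
  have hqc : (q : ℂ) ≠ 0 := by exact_mod_cast hqpos.ne'
  refine ⟨K / q, by rw [norm_div, hK]; simp [hqpos.ne'], ?_⟩
  intro x hx
  have hy : 0 < 1 / (4 * q * x) := by positivity
  rw [h _ hy]
  have e1 : (1 : ℝ) / (16 * q ^ 2 * (1 / (4 * q * x))) = x / (4 * q) := by
    field_simp
    norm_num
  rw [e1]
  have hxc : (x : ℂ) ≠ 0 := by exact_mod_cast hx.ne'
  have e2 : (16 * (q : ℝ) / (16 * q ^ 2 * (1 / (4 * q * x))) ^ 2) = x ^ 2 / q := by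
    field_simp
    norm_num
  have e3 : (16 * (q : ℂ) / (16 * q ^ 2 * ((1 / (4 * q * x) : ℝ) : ℂ)) ^ 2) =
      (x : ℂ) ^ 2 / q := by
    have := congrArg (fun z : ℝ => (z : ℂ)) e2
    push_cast at this ⊢
    exact this
  rw [e3]
  field_simp

end Pool.Agent.Y153.QT
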