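import Pool.Agent.Y19.QT.Forms
import Pool.Agent.W97.TW.Lfun
import Pool.Agent.Y705.QT0
import Pool.Agent.Y691.QT.Conv
import Pool.Agent.Y818.QT13b

set_option autoImplicit false

/-!
Project QT: families of quadratic twists from Hecke-type coefficients (no modular forms): normalised
coefficients, their Dirichlet inverses, functional equation for complex arguments, `L`-functions.
-/

namespace Pool.Agent.Y153.QT

open Complex Filter Topology
open Pool.Agent.Y19.QT
open Pool.Agent.H306R2.RZ (js)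
open Pool.Agent.Y691.QT (MulF cv ppf ppf_mul ppf_pow sum_bd SS one_le_SS sm sm_one sm_mul sm_pow co
  co_one co_mul co_pow cv_pow js_pow_right js_mul_left js_abs_pow)
open Pool.Agent.Y705.QT (js_mul js_one js_abs_le cheb_bound)

/-- real multiplicative coefficients of weight two with Hecke relations (`ε p = 1` at the good primes,
`ε p = 0` at the bad primes) -/
structure WT (ε c : ℕ → ℝ) : Prop where
  zero : c 0 = 0
  one : c 1 = 1
  mul : ∀ m n : ℕ, m.Coprime n → c (m * n) = c m * c n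
  eps : ∀ p : ℕ, p.Prime → ε p = 0 ∨ ε p = 1
  pow : ∀ p k : ℕ, p.Prime → c (p ^ (k + 2)) = c p * c (p ^ (k + 1)) - ε p * (p * c (p ^ k))
  good : ∀ p : ℕ, p.Prime → ε p = 1 → |c p| ≤ 2 * Real.sqrt p
  bad : ∀ p : ℕ, p.Prime → ε p = 0 → |c p| ≤ 1

/-- normalised coefficients -/
noncomputable def nrm (c : ℕ → ℝ) (n : ℕ) : ℝ := c n / Real.sqrt n

section basic

variable {ε c : ℕ → ℝ}

theorem nrm_mul (h : WT ε c) : MulF (nrm c) := by
  refine ⟨by simp [nrm], by simp [nrm, h.one], ?_⟩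
  intro m n hmn
  unfold nrm
  rw [h.mul m n hmn, Nat.cast_mul, Real.sqrt_mul (by positivity)]
  rw [mul_div_mul_comm]

theorem nrm_sqrt (h : WT ε c) (n : ℕ) : nrm c n * Real.sqrt n = c n := by
  rcases Nat.eq_zero_or_pos n with rfl | hn
  · simp [h.zero]
  · unfold nrm
    have hs : Real.sqrt n ≠ 0 := (Real.sqrt_pos.2 (by exact_mod_cast hn)).ne'
    field_simp

theorem nrm_rec (h : WT ε c) {p : ℕ} (hp : p.Prime) (k : ℕ) :
    nrm c (p ^ (k + 2)) = nrm c p * nrm c (p ^ (k + 1)) - ε p * nrm c (p ^ k) := by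
  have hp0 : (0 : ℝ) < p := by exact_mod_cast hp.pos
  have hs : (0 : ℝ) < Real.sqrt p := Real.sqrt_pos.2 hp0
  have hss : Real.sqrt p * Real.sqrt p = p := Real.mul_self_sqrt hp0.le
  have hq : ∀ j : ℕ, Real.sqrt ((p ^ j : ℕ) : ℝ) = Real.sqrt p ^ j := by
    intro j
    rw [Nat.cast_pow, Real.sqrt_eq_rpow, Real.sqrt_eq_rpow, ← Real.rpow_natCast,
      ← Real.rpow_natCast, ← Real.rpow_mul hp0.le, ← Real.rpow_mul hp0.le, mul_comm]
  unfold nrm
  rw [hq, hq, hq, h.pow p k hp]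
  have hx : Real.sqrt (p : ℝ) ^ (k + 2) = Real.sqrt p * Real.sqrt p ^ (k + 1) := by ring
  have hy : Real.sqrt (p : ℝ) ^ (k + 2) = p * Real.sqrt p ^ k := by
    calc Real.sqrt (p : ℝ) ^ (k + 2) = Real.sqrt p * Real.sqrt p * Real.sqrt p ^ k := by ring
      _ = _ := by rw [hss]
  have hk : Real.sqrt (p : ℝ) ^ k ≠ 0 := (pow_pos hs _).ne'
  rw [sub_div]
  congr 1
  · rw [hx, mul_div_mul_comm]
  · rw [hy]
    field_simp

theorem nrm_good (h : WT ε c) {p : ℕ} (hp : p.Prime) (he : ε p = 1) : |nrm c p| ≤ 2 := by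
  have hp0 : (0 : ℝ) < p := by exact_mod_cast hp.pos
  have hs : (0 : ℝ) < Real.sqrt p := Real.sqrt_pos.2 hp0
  unfold nrm
  rw [abs_div, abs_of_pos hs, div_le_iff₀ hs]
  exact h.good p hp he

theorem nrm_bad (h : WT ε c) {p : ℕ} (hp : p.Prime) (he : ε p = 0) : |nrm c p| ≤ 1 := by
  have hp0 : (1 : ℝ) ≤ p := by exact_mod_cast hp.one_le
  have hs : (1 : ℝ) ≤ Real.sqrt p := by
    rw [Real.one_le_sqrt]
    exact hp0
  have h1 := h.bad p hp he
  have hs0 : (0 : ℝ) < Real.sqrt p := by linarith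
  unfold nrm
  rw [abs_div, abs_of_pos hs0, div_le_iff₀ hs0]
  linarith

theorem nrm_pow_le (h : WT ε c) {p : ℕ} (hp : p.Prime) (k : ℕ) :
    |nrm c (p ^ k)| ≤ k + 1 := by
  have hm := nrm_mul h
  rcases h.eps p hp with he | he
  · have h1 : ∀ k : ℕ, |nrm c (p ^ k)| ≤ 1 ∧ |nrm c (p ^ (k + 1))| ≤ 1 := by
      intro k
      induction k with
      | zero =>
        refine ⟨by simp [hm.one], ?_⟩
        simpa using nrm_bad h hp he
      | succ k ih =>
        refine ⟨ih.2, ?_⟩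
        rw [nrm_rec h hp k, he, zero_mul, sub_zero, abs_mul]
        calc |nrm c p| * |nrm c (p ^ (k + 1))| ≤ 1 * 1 :=
              mul_le_mul (nrm_bad h hp he) ih.2 (abs_nonneg _) (by norm_num)
          _ = 1 := by norm_num
    have := (h1 k).1
    have h2 : (0 : ℝ) ≤ k := by positivity
    linarith
  · exact cheb_bound (fun k => nrm c (p ^ k)) (nrm c p) (nrm_good h hp he) (by simp [hm.one])
      (by simp) (fun k => by
        have := nrm_rec h hp k
        rwa [he, one_mul] at this) k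

end basic

/-! ### the factors at the primes dividing `Q` -/

/-- the factors at the primes dividing `Q` -/
noncomputable def eC (Q : ℕ) (c : ℕ → ℝ) (n : ℕ) : ℝ := nrm c n * sm Q n

/-- the inverse at prime powers -/
noncomputable def iC (Q : ℕ) (ε c : ℕ → ℝ) (p k : ℕ) : ℝ :=
  if p ∣ Q then (if k = 1 then -nrm c p else if k = 2 then ε p else 0) else 0

/-- the coefficients away from `Q` -/
noncomputable def lC (Q : ℕ) (c : ℕ → ℝ) (n : ℕ) : ℝ := nrm c n * co Q n

section factors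

variable {ε c : ℕ → ℝ} {Q : ℕ}

theorem eC_mul (h : WT ε c) (Q : ℕ) : MulF (eC Q c) := (nrm_mul h).prod' (sm_one Q) (sm_mul Q)

theorem lC_mul (h : WT ε c) (Q : ℕ) : MulF (lC Q c) := (nrm_mul h).prod' (co_one Q) (co_mul Q)

theorem eC_pow (h : WT ε c) {p : ℕ} (hp : p.Prime) (hpQ : p ∣ Q) (k : ℕ) :
    eC Q c (p ^ k) = nrm c (p ^ k) := by
  rcases k with _ | k
  · simp [(eC_mul h Q).one, (nrm_mul h).one]
  · unfold eC
    rw [sm_pow hp, if_pos hpQ, mul_one]

theorem eC_pow' {p : ℕ} (hp : p.Prime) (hpQ : ¬ p ∣ Q) (k : ℕ) : eC Q c (p ^ (k + 1)) = 0 := by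
  unfold eC
  rw [sm_pow hp, if_neg hpQ, mul_zero]

theorem eC_pow_le (h : WT ε c) {p : ℕ} (hp : p.Prime) (k : ℕ) : |eC Q c (p ^ k)| ≤ k + 1 := by
  by_cases hpQ : p ∣ Q
  · rw [eC_pow h hp hpQ]
    exact nrm_pow_le h hp k
  · rcases k with _ | k
    · simp [(eC_mul h Q).one]
    · rw [eC_pow' hp hpQ, abs_zero]
      positivity

theorem iC_pow_le (h : WT ε c) {p : ℕ} (hp : p.Prime) (k : ℕ) :
    |ppf (iC Q ε c) (p ^ k)| ≤ k + 1 := by
  rcases k with _ | k
  · simp [(ppf_mul (iC Q ε c)).one]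
  · rw [ppf_pow _ hp]
    unfold iC
    push_cast
    have hk : (0 : ℝ) ≤ k := by positivity
    split_ifs with h1 h2 h3
    · rw [abs_neg]
      have h4 := nrm_pow_le h hp 1
      rw [pow_one] at h4
      push_cast at h4
      linarith
    · rcases h.eps p hp with he | he <;> rw [he]
      · rw [abs_zero]; linarith
      · rw [abs_one]; linarith
    · rw [abs_zero]
      linarith
    · rw [abs_zero]
      linarith

theorem cv_e_i (h : WT ε c) (n : ℕ) :
    cv (eC Q c) (ppf (iC Q ε c)) n = if n = 1 then 1 else 0 := by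
  refine MulF.ext ((eC_mul h Q).cv (ppf_mul (iC Q ε c))) MulF.delta ?_ n
  intro p k hp
  have hne : p ^ (k + 1) ≠ 1 := by
    rw [Ne, Nat.pow_eq_one]
    push Not
    exact ⟨hp.ne_one, Nat.succ_ne_zero k⟩
  simp only [hne, if_false]
  rw [cv_pow _ _ hp]
  by_cases hpQ : p ∣ Q
  · rcases k with _ | k
    · rw [Finset.sum_range_succ, Finset.sum_range_succ, Finset.sum_range_zero]
      simp only [zero_add, pow_zero, Nat.sub_zero, Nat.sub_self]
      rw [show (1 : ℕ) = 0 + 1 from rfl, ppf_pow _ hp, zero_add, (eC_mul h Q).one,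
        eC_pow h hp hpQ, (ppf_mul (iC Q ε c)).one]
      simp [iC, hpQ]
    · rw [Finset.sum_range_succ, Finset.sum_range_succ, Finset.sum_range_succ]
      have h0 : ∑ x ∈ Finset.range k, eC Q c (p ^ x) *
          ppf (iC Q ε c) (p ^ (k + 1 + 1 - x)) = 0 := by
        refine Finset.sum_eq_zero fun x hx => ?_
        have hx' := Finset.mem_range.1 hx
        obtain ⟨j, hj⟩ : ∃ j, k + 1 + 1 - x = j + 2 + 1 := ⟨k - x - 1, by omega⟩
        rw [hj, ppf_pow _ hp]
        simp [iC]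
      rw [h0, zero_add]
      have e1 : k + 1 + 1 - k = 1 + 1 := by omega
      have e2 : k + 1 + 1 - (k + 1) = 0 + 1 := by omega
      have e3 : k + 1 + 1 - (k + 1 + 1) = 0 := by omega
      rw [e1, e2, e3, ppf_pow _ hp, ppf_pow _ hp, pow_zero, (ppf_mul (iC Q ε c)).one,
        eC_pow h hp hpQ, eC_pow h hp hpQ, eC_pow h hp hpQ, nrm_rec h hp k]
      simp [iC, hpQ]
      ring
  · refine Finset.sum_eq_zero fun x hx => ?_
    rcases x with _ | x
    · rw [Nat.sub_zero, ppf_pow _ hp]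
      simp [iC, hpQ]
    · rw [eC_pow' hp hpQ, zero_mul]

/-- comparison with a twist at the primes not dividing `Q` -/
theorem twist_pow {ε₁ c₁ : ℕ → ℝ} (h : WT ε c) (h₁ : WT ε₁ c₁) {d : ℤ} {p : ℕ} (hp : p.Prime)
    (he : ε p = js d p ^ 2) (he₁ : ε₁ p = 1) (hc : c p = js d p * c₁ p) (k : ℕ) :
    nrm c (p ^ k) = js d p ^ k * nrm c₁ (p ^ k) := by
  have e : nrm c p = js d p * nrm c₁ p := by
    unfold nrm
    rw [hc, mul_div_assoc]
  have key : ∀ k : ℕ, nrm c (p ^ k) = js d p ^ k * nrm c₁ (p ^ k) ∧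
      nrm c (p ^ (k + 1)) = js d p ^ (k + 1) * nrm c₁ (p ^ (k + 1)) := by
    intro k
    induction k with
    | zero =>
      refine ⟨by simp [(nrm_mul h).one, (nrm_mul h₁).one], ?_⟩
      simpa using e
    | succ k ih =>
      refine ⟨ih.2, ?_⟩
      rw [show k + 1 + 1 = k + 2 from rfl, nrm_rec h hp k, nrm_rec h₁ hp k, ih.1, ih.2, e, he, he₁]
      ring
  exact (key k).1

theorem cv_l {ε₁ c₁ : ℕ → ℝ} (h : WT ε c) (h₁ : WT ε₁ c₁) {d : ℤ}
    (hg : ∀ p : ℕ, p.Prime → ¬ p ∣ Q → ε p = js d p ^ 2 ∧ ε₁ p = 1 ∧ c p = js d p * c₁ p) (n : ℕ) :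
    cv (eC Q c) (fun n => lC Q c₁ n * js d n) n = nrm c n := by
  have hL : MulF (fun n => lC Q c₁ n * js d n) :=
    (lC_mul h₁ Q).prod' (js_one _) fun x y hx hy _ => js_mul _ hx hy
  refine MulF.ext ((eC_mul h Q).cv hL) (nrm_mul h) ?_ n
  intro p k hp
  rw [cv_pow _ _ hp]
  by_cases hpQ : p ∣ Q
  · rw [Finset.sum_range_succ]
    have h0 : ∑ x ∈ Finset.range (k + 1), eC Q c (p ^ x) *
        (lC Q c₁ (p ^ (k + 1 - x)) * js d (p ^ (k + 1 - x) : ℕ)) = 0 := by
      refine Finset.sum_eq_zero fun x hx => ?_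
      have hx' := Finset.mem_range.1 hx
      obtain ⟨j, hj⟩ : ∃ j, k + 1 - x = j + 1 := ⟨k - x, by omega⟩
      rw [hj]
      unfold lC
      rw [co_pow hp, if_pos hpQ]
      ring
    simp only [h0, zero_add, Nat.sub_self, pow_zero]
    rw [hL.one, mul_one, eC_pow h hp hpQ]
  · rw [Finset.sum_range_succ', Finset.sum_eq_zero, zero_add]
    · simp only [pow_zero, Nat.sub_zero]
      rw [(eC_mul h Q).one, one_mul, js_pow_right]
      unfold lC
      obtain ⟨g1, g2, g3⟩ := hg p hp hpQ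
      rw [co_pow hp, if_neg hpQ, mul_one, twist_pow h h₁ hp g1 g2 g3, mul_comm]
    · intro x _
      rw [eC_pow' hp hpQ, zero_mul]

end factors

/-! ### functional equation for complex arguments -/

section fe

variable {c : ℕ → ℝ} {C q : ℝ} {m : ℕ}

theorem summ_bd (hc : ∀ n : ℕ, |c n| ≤ C * (n : ℝ) ^ m) {r : ℝ} (hr : 0 < r) :
    Summable (fun n : ℕ => |c n| * Real.exp (-r * n)) := by
  refine Summable.of_nonneg_of_le (fun n => by positivity) (fun n => ?_)
    ((Real.summable_pow_mul_exp_neg_nat_mul m hr).mul_left C)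
  rw [← mul_assoc]
  exact mul_le_mul_of_nonneg_right (hc n) (Real.exp_pos _).le

theorem norm_term (c : ℕ → ℝ) (q : ℝ) (n : ℕ) (z : ℂ) :
    ‖(c n : ℂ) * cexp (-(2 * Real.pi * n * z / (q : ℝ)))‖ =
      |c n| * Real.exp (-(2 * Real.pi * z.re / q) * n) := by
  rw [norm_mul, Complex.norm_real, Real.norm_eq_abs, Complex.norm_exp]
  congr 2
  have : (2 * Real.pi * n * z / (q : ℝ) : ℂ) = ((2 * Real.pi * n / q : ℝ) : ℂ) * z := by
    push_cast; ring
  rw [this, Complex.neg_re, Complex.re_ofReal_mul]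
  ring

theorem diff_theta (hc : ∀ n : ℕ, |c n| ≤ C * (n : ℝ) ^ m) (hq : 0 < q) :
    DifferentiableOn ℂ (fun z : ℂ => ∑' n : ℕ, (c n : ℂ) * cexp (-(2 * Real.pi * n * z / (q : ℝ))))
      {z : ℂ | 0 < z.re} := by
  intro z hz
  have hz' : 0 < z.re := hz
  have hU : IsOpen {x : ℂ | z.re / 2 < x.re} := isOpen_lt continuous_const Complex.continuous_re
  have hzU : z ∈ {x : ℂ | z.re / 2 < x.re} := by
    show z.re / 2 < z.re
    linarith
  have h1 : DifferentiableOn ℂ
      (fun z : ℂ => ∑' n : ℕ, (c n : ℂ) * cexp (-(2 * Real.pi * n * z / (q : ℝ))))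
      {x : ℂ | z.re / 2 < x.re} := by
    have hr : 0 < 2 * Real.pi * (z.re / 2) / q := by positivity
    refine differentiableOn_tsum_of_summable_norm (summ_bd hc hr) ?_ hU ?_
    · intro n
      fun_prop
    · intro n w hw
      have hw' : z.re / 2 < w.re := hw
      rw [norm_term]
      refine mul_le_mul_of_nonneg_left ?_ (abs_nonneg _)
      apply Real.exp_le_exp.2
      refine mul_le_mul_of_nonneg_right ?_ (Nat.cast_nonneg n)
      rw [neg_le_neg_iff]
      refine div_le_div_of_nonneg_right ?_ hq.le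
      refine mul_le_mul_of_nonneg_left hw'.le (by positivity)
  exact (h1.differentiableAt (hU.mem_nhds hzU)).differentiableWithinAt

/-- from real to complex arguments -/
theorem fe_ext (hc : ∀ n : ℕ, |c n| ≤ C * (n : ℝ) ^ m) (hq : 0 < q) (w : ℂ)
    (hfe : ∀ t : ℝ, 0 < t → ∑' n : ℕ, (c n : ℂ) * cexp (-(2 * Real.pi * n * (1 / (t : ℂ)) / (q : ℝ))) =
      w * (t : ℂ) ^ 2 * ∑' n : ℕ, (c n : ℂ) * cexp (-(2 * Real.pi * n * (t : ℂ) / (q : ℝ))))
    (z : ℂ) (hz : 0 < z.re) :
    ∑' n : ℕ, (c n : ℂ) * cexp (-(2 * Real.pi * n * (1 / z) / (q : ℝ))) =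
      w * z ^ 2 * ∑' n : ℕ, (c n : ℂ) * cexp (-(2 * Real.pi * n * z / (q : ℝ))) := by
  set U : Set ℂ := {z : ℂ | 0 < z.re} with hU
  have hUo : IsOpen U := isOpen_lt continuous_const Complex.continuous_re
  have hUc : IsPreconnected U := by
    have : Convex ℝ U := convex_halfSpace_re_gt _
    exact this.isPreconnected
  set f : ℂ → ℂ := fun z => ∑' n : ℕ, (c n : ℂ) * cexp (-(2 * Real.pi * n * z / (q : ℝ))) with hf
  have hfd : DifferentiableOn ℂ f U := diff_theta hc hq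
  have hinv : ∀ z ∈ U, 1 / z ∈ U := by
    intro z hz
    have hz' : 0 < z.re := hz
    have hz0 : z ≠ 0 := fun h => by rw [h] at hz'; simp at hz'
    show 0 < (1 / z).re
    rw [one_div, Complex.inv_re]
    exact div_pos hz' (Complex.normSq_pos.2 hz0)
  have hne : ∀ z ∈ U, z ≠ 0 := by
    intro z hz h
    have hz' : 0 < z.re := hz
    rw [h] at hz'
    simp at hz'
  have h1d : DifferentiableOn ℂ (fun z : ℂ => f (1 / z)) U := by
    refine hfd.comp (f := fun z : ℂ => 1 / z) ?_ hinv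
    intro z hz
    exact (differentiableAt_const _).div differentiableAt_id (hne z hz) |>.differentiableWithinAt
  have h2d : DifferentiableOn ℂ (fun z : ℂ => w * z ^ 2 * f z) U := by
    refine DifferentiableOn.mul ?_ hfd
    fun_prop
  have ha1 : AnalyticOnNhd ℂ (fun z : ℂ => f (1 / z)) U := h1d.analyticOnNhd hUo
  have ha2 : AnalyticOnNhd ℂ (fun z : ℂ => w * z ^ 2 * f z) U := h2d.analyticOnNhd hUo
  have h1U : (1 : ℂ) ∈ U := by
    show 0 < (1 : ℂ).re
    simp
  have hfreq : ∃ᶠ z in 𝓝[≠] (1 : ℂ), f (1 / z) = w * z ^ 2 * f z := by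
    have hseq : Tendsto (fun k : ℕ => ((1 + 1 / ((k : ℝ) + 1) : ℝ) : ℂ)) atTop (𝓝[≠] (1 : ℂ)) := by
      rw [tendsto_nhdsWithin_iff]
      constructor
      · have h1 : Tendsto (fun k : ℕ => (1 + 1 / ((k : ℝ) + 1) : ℝ)) atTop (𝓝 (1 + 0)) :=
          tendsto_const_nhds.add tendsto_one_div_add_atTop_nhds_zero_nat
        rw [add_zero] at h1
        have h2 := (Complex.continuous_ofReal.tendsto (1 : ℝ)).comp h1
        rw [Complex.ofReal_one] at h2
        exact h2
      · refine Filter.Eventually.of_forall fun k => ?_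
        rw [Set.mem_compl_iff, Set.mem_singleton_iff]
        intro h
        have h3 : (1 + 1 / ((k : ℝ) + 1) : ℝ) = 1 := by exact_mod_cast h
        have h4 : (0 : ℝ) < 1 / ((k : ℝ) + 1) := by positivity
        linarith
    refine hseq.frequently (Filter.Frequently.of_forall fun k => ?_)
    have ht : (0 : ℝ) < 1 + 1 / ((k : ℝ) + 1) := by positivity
    exact hfe _ ht
  exact ha1.eqOn_of_preconnected_of_frequently_eq ha2 hUc h1U hfreq hz

end fe

/-! ### the family of twists -/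

/-- the family of twists from Hecke-type coefficients -/
theorem hasTwists_of (a b : ℤ) (Q : ℕ) (hQ0 : 0 < Q)
    (hQ16 : ∀ p : ℕ, p.Prime → p ≤ 16 → p ∣ Q)
    (hQ : ∀ p : ℕ, p.Prime → (p : ℤ) ∣ 2 * (4 * a ^ 3 + 27 * b ^ 2) → p ∣ Q)
    (ε c : ℤ → ℕ → ℝ) (hW : ∀ d : ℤ, Squarefree d → WT (ε d) (c d))
    (hg : ∀ d : ℤ, Squarefree d → ∀ p : ℕ, p.Prime → ¬ p ∣ Q →
      ε d p = js d p ^ 2 ∧ c d p = js d p * c 1 p)
    (hap : ∀ p : ℕ, p.Prime → ¬ p ∣ Q → c 1 p = ap a b p)
    (q : ℤ → ℝ) (w : ℤ → ℝ) (K : ℝ) (hK : 1 ≤ K)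
    (hq1 : ∀ d : ℤ, Squarefree d → |(d : ℝ)| ≤ K * q d)
    (hq2 : ∀ d : ℤ, Squarefree d → q d ≤ K * |(d : ℝ)|)
    (hw : ∀ d : ℤ, Squarefree d → w d ^ 2 = 1)
    (hfe : ∀ d : ℤ, Squarefree d → ∀ z : ℂ, 0 < z.re →
      ∑' n : ℕ, (c d n : ℂ) * cexp (-(2 * Real.pi * n * (1 / z) / q d)) =
      w d * z ^ 2 * ∑' n : ℕ, (c d n : ℂ) * cexp (-(2 * Real.pi * n * z / q d))) :
    HasTwists a b := by
  have h1 : Squarefree (1 : ℤ) := squarefree_one
  have hW1 := hW 1 h1
  have he1 : ∀ p : ℕ, p.Prime → ¬ p ∣ Q → ε 1 p = 1 := by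
    intro p hp hpQ
    rw [(hg 1 h1 p hp hpQ).1]
    rw [Pool.Agent.Y691.QT.js_one_left, one_pow]
  have hm := lC_mul hW1 Q
  refine ⟨Q, lC Q (c 1), ?_, hQ, ?_⟩
  · have hH : Hecke Q (lC Q (c 1)) := by
      refine ⟨hQ0, hQ16, hm.zero, hm.one, hm.mul, ?_, ?_, ?_⟩
      · intro p k hp hpQ
        unfold lC
        rw [co_pow hp, if_pos hpQ, mul_zero]
      · intro p k hp hpQ
        have hr := nrm_rec hW1 hp k
        rw [he1 p hp hpQ, one_mul] at hr
        have hcc : ∀ j : ℕ, co Q (p ^ j) = 1 := by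
          intro j
          rcases j with _ | j
          · simp [co_one]
          · rw [co_pow hp, if_neg hpQ]
        have c1 : co Q p = 1 := by simpa using hcc 1
        unfold lC
        rw [hcc, hcc, hcc, c1, hr]
        ring
      · intro p hp
        have h3 := co_pow (Q := Q) hp 0
        rw [zero_add, pow_one] at h3
        unfold lC
        by_cases hpQ : p ∣ Q
        · rw [h3, if_pos hpQ, mul_zero, abs_zero]
          norm_num
        · rw [h3, if_neg hpQ, mul_one]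
          exact nrm_good hW1 hp (he1 p hp hpQ)
    have hSS : 1 ≤ SS ^ Q.primeFactors.card := one_le_pow₀ one_le_SS
    refine ⟨{
      hecke := hH
      c := K + SS ^ Q.primeFactors.card
      one_le_c := by linarith
      q := q
      w := w
      e := fun d => eC Q (c d)
      e' := fun d => ppf (iC Q (ε d) (c d))
      q_lower := ?_
      q_upper := ?_
      w_sq := hw
      e_zero := ?_
      e_sum := ?_
      e'_sum := ?_
      e_inv := ?_
      fe := ?_ }⟩
    · intro d hd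
      have h2 : 0 ≤ q d := by
        have h3 := hq1 d hd
        by_contra hneg
        push Not at hneg
        have h4 : K * q d < 0 := mul_neg_of_pos_of_neg (by linarith) hneg
        have := abs_nonneg (d : ℝ)
        linarith
      refine (hq1 d hd).trans (mul_le_mul_of_nonneg_right (by linarith) h2)
    · intro d hd
      refine (hq2 d hd).trans (mul_le_mul_of_nonneg_right (by linarith) (abs_nonneg _))
    · intro d hd
      exact ⟨(eC_mul (hW d hd) Q).zero, (ppf_mul _).zero⟩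
    · intro d hd
      have h := sum_bd (eC_mul (hW d hd) Q) Q hQ0.ne'
        (fun p k hp hpQ => eC_pow' hp hpQ k) (fun p k hp => eC_pow_le (hW d hd) hp k)
      exact ⟨h.1, h.2.trans (by linarith)⟩
    · intro d hd
      have h := sum_bd (ppf_mul (iC Q (ε d) (c d))) Q hQ0.ne'
        (fun p k hp hpQ => by rw [ppf_pow _ hp]; simp [iC, hpQ])
        (fun p k hp => iC_pow_le (hW d hd) hp k)
      exact ⟨h.1, h.2.trans (by linarith)⟩
    · intro d hd n _
      exact cv_e_i (hW d hd) n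
    · intro d hd z hz
      have key : ∀ n : ℕ, (((∑ x ∈ n.divisorsAntidiagonal, eC Q (c d) x.1 *
          (lC Q (c 1) x.2 * js d x.2)) * Real.sqrt n : ℝ) : ℂ) = (c d n : ℂ) := by
        intro n
        have h3 := cv_l (Q := Q) (d := d) (hW d hd) hW1
          (fun p hp hpQ => ⟨(hg d hd p hp hpQ).1, he1 p hp hpQ, (hg d hd p hp hpQ).2⟩) n
        have h4 : ∑ x ∈ n.divisorsAntidiagonal, eC Q (c d) x.1 *
          (lC Q (c 1) x.2 * js d x.2) = nrm (c d) n := h3
        rw [h4, nrm_sqrt (hW d hd)]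
      have h := hfe d hd z hz
      simp only [key]
      exact h
  · intro p hp hpQ
    have h3 := co_pow (Q := Q) hp 0
    rw [zero_add, pow_one, if_neg hpQ] at h3
    unfold lC
    rw [h3, mul_one]
    unfold nrm
    rw [hap p hp hpQ]

end Pool.Agent.Y153.QT
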