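import Pool.Agent.Y153.QT.Gen

set_option autoImplicit false

/-!
Project QT: `L`-functions from Hecke-type coefficients with a functional equation.
-/

namespace Pool.Agent.Y153.QT

open Complex Filter Topology
open Pool.Agent.Y19.QT
open Pool.Agent.Y818.QT13b (hasSum_succ_pow)

section

variable {ε c : ℕ → ℝ}

theorem c_pow_le (h : WT ε c) {p : ℕ} (hp : p.Prime) (k : ℕ) :
    |c (p ^ k)| ≤ ((k : ℝ) + 1) * Real.sqrt p ^ k := by
  have h1 := nrm_pow_le h hp k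
  have hp0 : (0 : ℝ) ≤ p := Nat.cast_nonneg p
  have hq : Real.sqrt ((p ^ k : ℕ) : ℝ) = Real.sqrt p ^ k := by
    rw [Nat.cast_pow, Real.sqrt_eq_rpow, Real.sqrt_eq_rpow, ← Real.rpow_natCast,
      ← Real.rpow_natCast, ← Real.rpow_mul hp0, ← Real.rpow_mul hp0, mul_comm]
  rw [← nrm_sqrt h (p ^ k), abs_mul, hq, abs_of_nonneg (pow_nonneg (Real.sqrt_nonneg _) _)]
  exact mul_le_mul_of_nonneg_right h1 (pow_nonneg (Real.sqrt_nonneg _) _)

theorem summable_c (h : WT ε c) {s : ℂ} (hs : (3 : ℝ) / 2 < s.re) :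
    Summable (fun n : ℕ => ‖(c n : ℂ) * (n : ℂ) ^ (-s)‖) := by
  set σ : ℝ := s.re with hσ
  have hnorm : ∀ n : ℕ, 1 ≤ n → ‖(n : ℂ) ^ (-s)‖ = (n : ℝ) ^ (-σ) := by
    intro n hn
    rw [Complex.norm_natCast_cpow_of_pos (by omega)]
    simp [hσ]
  have hgm : ∀ n : ℕ, 1 ≤ n → ‖(c n : ℂ) * (n : ℂ) ^ (-s)‖ = |c n| * (n : ℝ) ^ (-σ) := by
    intro n hn
    rw [norm_mul, hnorm n hn, Complex.norm_real, Real.norm_eq_abs]
  refine (Pool.Agent.Y705.QT0.T0 (fun n : ℕ => ‖(c n : ℂ) * (n : ℂ) ^ (-s)‖) 2 (σ - 1 / 2)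
    (by linarith) (fun n => norm_nonneg _) ?_ ?_ ?_ ?_).1
  · simp [h.zero]
  · simp [h.one]
  · intro m n hmn
    show ‖(c (m * n) : ℂ) * ((m * n : ℕ) : ℂ) ^ (-s)‖ = ‖(c m : ℂ) * (m : ℂ) ^ (-s)‖ *
      ‖(c n : ℂ) * (n : ℂ) ^ (-s)‖
    rw [h.mul m n hmn, Nat.cast_mul, Complex.natCast_mul_natCast_cpow, ← norm_mul]
    congr 1
    push_cast
    ring
  · intro p hp
    have hp0 : (0 : ℝ) < p := by exact_mod_cast hp.pos
    have hx1 : (p : ℝ) ^ (-(σ - 1 / 2)) < 1 :=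
      Real.rpow_lt_one_of_one_lt_of_neg (by exact_mod_cast hp.one_lt) (by linarith)
    have hx0 : (0 : ℝ) ≤ (p : ℝ) ^ (-(σ - 1 / 2)) := Real.rpow_nonneg hp0.le _
    have hS := hasSum_succ_pow hx0 hx1
    have hle : ∀ k : ℕ, ‖(c (p ^ k) : ℂ) * ((p ^ k : ℕ) : ℂ) ^ (-s)‖ ≤
        ((k : ℝ) + 1) * ((p : ℝ) ^ (-(σ - 1 / 2))) ^ k := by
      intro k
      have h1 : 1 ≤ p ^ k := Nat.one_le_pow _ _ hp.pos
      rw [hgm _ h1]
      refine (mul_le_mul_of_nonneg_right (c_pow_le h hp k)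
        (Real.rpow_nonneg (Nat.cast_nonneg _) _)).trans ?_
      rw [mul_assoc]
      refine mul_le_mul_of_nonneg_left (le_of_eq ?_) (by positivity)
      push_cast
      rw [← Real.rpow_natCast (p : ℝ) k, ← Real.rpow_mul hp0.le, Real.sqrt_eq_rpow,
        ← Real.rpow_natCast ((p : ℝ) ^ (1 / 2 : ℝ)) k, ← Real.rpow_mul hp0.le,
        ← Real.rpow_natCast ((p : ℝ) ^ (-(σ - 1 / 2))) k, ← Real.rpow_mul hp0.le,
        ← Real.rpow_add hp0]
      congr 1
      ring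
    have hsum : Summable (fun k : ℕ => ‖(c (p ^ k) : ℂ) * ((p ^ k : ℕ) : ℂ) ^ (-s)‖) :=
      Summable.of_nonneg_of_le (fun k => norm_nonneg _) hle hS.summable
    refine ⟨hsum, ?_⟩
    rw [← hS.tsum_eq]
    exact hsum.tsum_le_tsum hle hS.summable

/-- the local factor at `p` -/
noncomputable def fac (ε c : ℕ → ℝ) (p : ℕ) (s : ℂ) : ℂ :=
  1 - (c p : ℂ) * (p : ℂ) ^ (-s) + (ε p : ℂ) * (p : ℂ) ^ (1 - 2 * s)

theorem fac_diff (ε c : ℕ → ℝ) (p : ℕ) (hp : p.Prime) : Differentiable ℂ (fac ε c p) := by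
  have hp0 : (p : ℂ) ≠ 0 := by exact_mod_cast hp.ne_zero
  unfold fac
  have h1 : Differentiable ℂ (fun s : ℂ => (p : ℂ) ^ (-s)) := fun s =>
    (differentiableAt_id.neg).const_cpow (Or.inl hp0)
  have h2 : Differentiable ℂ (fun s : ℂ => (p : ℂ) ^ (1 - 2 * s)) := fun s =>
    ((differentiableAt_const _).sub ((differentiableAt_const _).mul differentiableAt_id)).const_cpow
      (Or.inl hp0)
  exact ((differentiable_const _).sub ((differentiable_const _).mul h1)).add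
    ((differentiable_const _).mul h2)

theorem local_sum (h : WT ε c) {s : ℂ} (hs : (3 : ℝ) / 2 < s.re) {p : ℕ} (hp : p.Prime) :
    (∑' e : ℕ, (c (p ^ e) : ℂ) * ((p ^ e : ℕ) : ℂ) ^ (-s)) * fac ε c p s = 1 := by
  have hp1 : 1 < p := hp.one_lt
  have hp0 : (p : ℂ) ≠ 0 := by exact_mod_cast hp.ne_zero
  set X : ℂ := (p : ℂ) ^ (-s) with hX
  have hpow : ∀ e : ℕ, ((p ^ e : ℕ) : ℂ) ^ (-s) = X ^ e := by
    intro e
    rw [Nat.cast_pow, Pool.Agent.W97.TW.natCast_pow_cpow]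
  have hX2 : (p : ℂ) ^ (1 - 2 * s) = p * X ^ 2 := by
    rw [Complex.cpow_sub _ _ hp0, Complex.cpow_one, hX, div_eq_mul_inv, ← Complex.cpow_neg,
      ← Complex.cpow_nat_mul]
    congr 2
    push_cast; ring
  have hsp : Summable (fun e : ℕ => (c (p ^ e) : ℂ) * ((p ^ e : ℕ) : ℂ) ^ (-s)) :=
    (Summable.of_norm (summable_c h hs)).comp_injective (Nat.pow_right_injective hp1)
  simp only [hpow] at hsp ⊢
  set S : ℂ := ∑' e : ℕ, (c (p ^ e) : ℂ) * X ^ e with hS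
  have hs1 : S = 1 + ∑' e : ℕ, (c (p ^ (e + 1)) : ℂ) * X ^ (e + 1) := by
    rw [hS, hsp.tsum_eq_zero_add]
    simp [h.one]
  have hsp1 : Summable (fun e : ℕ => (c (p ^ (e + 1)) : ℂ) * X ^ (e + 1)) :=
    (summable_nat_add_iff (f := fun e : ℕ => (c (p ^ e) : ℂ) * X ^ e) 1).mpr hsp
  have hs2 : S = 1 + c p * X + ∑' e : ℕ, (c (p ^ (e + 2)) : ℂ) * X ^ (e + 2) := by
    rw [hs1, hsp1.tsum_eq_zero_add]
    simp only [zero_add, pow_one]
    ring_nf
  have hs3 : ∑' e : ℕ, (c (p ^ (e + 2)) : ℂ) * X ^ (e + 2) =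
      c p * X * ∑' e : ℕ, (c (p ^ (e + 1)) : ℂ) * X ^ (e + 1) - ε p * p * X ^ 2 * S := by
    rw [hS, ← tsum_mul_left, ← tsum_mul_left, ← (hsp1.mul_left _).tsum_sub (hsp.mul_left _)]
    refine tsum_congr fun e => ?_
    rw [h.pow p e hp]
    push_cast
    ring
  have hs4 : ∑' e : ℕ, (c (p ^ (e + 1)) : ℂ) * X ^ (e + 1) = S - 1 := by rw [hs1]; ring
  have hfac : fac ε c p s = 1 - c p * X + ε p * (p * X ^ 2) := by
    unfold fac
    rw [hX2, ← hX]
  rw [hs3, hs4] at hs2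
  rw [hfac]
  linear_combination hs2

theorem euler (h : WT ε c) {s : ℂ} (hs : (3 : ℝ) / 2 < s.re) :
    HasProd (fun p : Nat.Primes => (fac ε c p s)⁻¹) (∑' n : ℕ, (c n : ℂ) * (n : ℂ) ^ (-s)) := by
  have hprod := EulerProduct.eulerProduct_hasProd (f := fun n : ℕ => (c n : ℂ) * (n : ℂ) ^ (-s))
    (by simp [h.one]) (fun {m n} hmn => by
      rw [h.mul m n hmn, Nat.cast_mul, Complex.natCast_mul_natCast_cpow]
      push_cast
      ring) (summable_c h hs) (by simp [h.zero])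
  refine hprod.congr_fun fun p => ?_
  exact (eq_inv_of_mul_eq_one_left (local_sum h hs p.2)).symm

theorem fac_ne_zero (h : WT ε c) {s : ℂ} (hs : (3 : ℝ) / 2 < s.re) {p : ℕ}
    (hp : p.Prime) : fac ε c p s ≠ 0 :=
  right_ne_zero_of_mul_eq_one (local_sum h hs hp)

/-- the entire `L`-function -/
theorem entire (h : WT ε c) {C q : ℝ} {m : ℕ} (hC : 0 ≤ C)
    (hc : ∀ n : ℕ, |c n| ≤ C * (n : ℝ) ^ m) (hq : 0 < q) (w : ℂ) (hw : w ≠ 0)
    (hfe : ∀ t : ℝ, 0 < t → ∑' n : ℕ, (c n : ℂ) * cexp (-(2 * Real.pi * n * (1 / (t : ℂ)) / (q : ℝ))) =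
      w * (t : ℂ) ^ 2 * ∑' n : ℕ, (c n : ℂ) * cexp (-(2 * Real.pi * n * (t : ℂ) / (q : ℝ)))) :
    ∃ L : ℂ → ℂ, Differentiable ℂ L ∧
    ∀ s : ℂ, (3 : ℝ) / 2 < s.re → L s = ∑' n : ℕ, (c n : ℂ) * (n : ℂ) ^ (-s) := by
  set f : ℂ → ℂ := fun z => ∑' n : ℕ, (c n : ℂ) * cexp (-(2 * Real.pi * n * z / (q : ℝ))) with hf
  have hfd : DifferentiableOn ℂ f {z : ℂ | 0 < z.re} := diff_theta hc hq
  set Φ : ℝ → ℂ := fun t => f (t : ℂ) with hΦ
  have hsum : ∀ z : ℂ, 0 < z.re → Summable (fun n : ℕ => (c n : ℂ) *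
      cexp (-(2 * Real.pi * n * z / (q : ℝ)))) := by
    intro z hz
    refine Summable.of_norm ?_
    have hr : 0 < 2 * Real.pi * z.re / q := by positivity
    refine (summ_bd hc hr).congr fun n => ?_
    rw [norm_term]
  obtain ⟨H, hH, -, hH2⟩ := Pool.Agent.W97.TW.core (c := fun n => (c n : ℂ)) (C := C) (β := m)
    (q := q) (Φ := Φ) (by simp [h.zero]) (fun n _ => by
      rw [Complex.norm_real, Real.norm_eq_abs, Real.rpow_natCast]
      exact hc n) hq (fun t ht => by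
      have h1 := (hsum (t : ℂ) (by simpa using ht)).hasSum
      refine h1.congr_fun fun n => ?_
      congr 1
      rw [Complex.ofReal_exp]
      congr 1
      push_cast
      ring) (by
      intro t ht
      have ht' : (0 : ℝ) < t := ht
      refine ContinuousAt.continuousWithinAt ?_
      have h2 : ContinuousAt f (t : ℂ) :=
        (hfd.differentiableAt ((isOpen_lt continuous_const Complex.continuous_re).mem_nhds
          (by simpa using ht'))).continuousAt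
      exact ContinuousAt.comp (f := fun t : ℝ => (t : ℂ)) h2 Complex.continuous_ofReal.continuousAt)
    2 two_pos w hw (fun t ht => by
      have h1 := hfe t ht
      show f (((1 / t : ℝ)) : ℂ) = w * _ * f (t : ℂ)
      have e : (((1 / t : ℝ)) : ℂ) = 1 / (t : ℂ) := by push_cast; rfl
      rw [e, Real.rpow_two]
      push_cast
      exact h1)
  -- the entire function
  set L : ℂ → ℂ := fun s => (((q / (2 * Real.pi) : ℝ) : ℂ) ^ s)⁻¹ * (Complex.Gamma s)⁻¹ * H s with hL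
  have hqp : ((q / (2 * Real.pi) : ℝ) : ℂ) ≠ 0 := by
    have : (q / (2 * Real.pi) : ℝ) ≠ 0 := by positivity
    exact_mod_cast this
  have hLd : Differentiable ℂ L := by
    intro s
    have h1 : DifferentiableAt ℂ (fun s : ℂ => (((q / (2 * Real.pi) : ℝ) : ℂ) ^ s)⁻¹) s := by
      refine DifferentiableAt.inv ?_ ?_
      · exact differentiableAt_id.const_cpow (Or.inl hqp)
      · rw [Complex.cpow_def_of_ne_zero hqp]; exact Complex.exp_ne_zero _
    exact (h1.mul (Complex.differentiable_one_div_Gamma s)).mul (hH s)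
  have hL2 : ∀ s : ℂ, (m : ℝ) + 1 < s.re → L s = ∑' n : ℕ, (c n : ℂ) * (n : ℂ) ^ (-s) := by
    intro s hs
    have hm : (0 : ℝ) ≤ m := Nat.cast_nonneg m
    have h1 := hH2 s (by linarith) (by linarith)
    have h2 : ((q / (2 * Real.pi) : ℝ) : ℂ) ^ s ≠ 0 := by
      rw [Complex.cpow_def_of_ne_zero hqp]; exact Complex.exp_ne_zero _
    have h3 : Complex.Gamma s ≠ 0 := Complex.Gamma_ne_zero_of_re_pos (by linarith)
    simp only [hL, h1]
    field_simp
  refine ⟨L, hLd, ?_⟩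
  -- analyticity of the series
  have hser : ∀ s : ℂ, ∑' n : ℕ, (c n : ℂ) * (n : ℂ) ^ (-s) = LSeries (fun n => (c n : ℂ)) s := by
    intro s
    rw [LSeries]
    refine tsum_congr fun n => ?_
    rcases Nat.eq_zero_or_pos n with rfl | hn
    · simp [h.zero]
    · rw [LSeries.term_of_ne_zero hn.ne', Complex.cpow_neg, div_eq_mul_inv]
  have hsumm : ∀ s : ℂ, (3 : ℝ) / 2 < s.re → LSeriesSummable (fun n => (c n : ℂ)) s := by
    intro s hs
    refine (Summable.of_norm (summable_c h hs)).congr fun n => ?_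
    rcases Nat.eq_zero_or_pos n with rfl | hn
    · simp [h.zero]
    · rw [LSeries.term_of_ne_zero hn.ne', Complex.cpow_neg, div_eq_mul_inv]
  have habs : LSeries.abscissaOfAbsConv (fun n => (c n : ℂ)) ≤ ((3 / 2 : ℝ) : EReal) := by
    refine LSeries.abscissaOfAbsConv_le_of_forall_lt_LSeriesSummable fun y hy => ?_
    exact hsumm y (by simpa using hy)
  have han : AnalyticOnNhd ℂ (LSeries (fun n => (c n : ℂ))) {s : ℂ | (3 : ℝ) / 2 < s.re} := by
    refine (LSeries_analyticOnNhd _).mono fun s hs => ?_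
    refine lt_of_le_of_lt habs ?_
    exact_mod_cast hs
  have hconn : IsPreconnected {s : ℂ | (3 : ℝ) / 2 < s.re} := by
    have : Convex ℝ {s : ℂ | (3 : ℝ) / 2 < s.re} := convex_halfSpace_re_gt _
    exact this.isPreconnected
  have hm0 : (0 : ℝ) ≤ m := Nat.cast_nonneg m
  have heq := AnalyticOnNhd.eqOn_of_preconnected_of_eventuallyEq
    (f := L) (g := LSeries (fun n => (c n : ℂ))) (U := {s : ℂ | (3 : ℝ) / 2 < s.re})
    (z₀ := (((m : ℝ) + 3 : ℝ) : ℂ))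
    (fun s _ => (hLd.analyticAt s)) han hconn (by
      show (3 : ℝ) / 2 < (((m : ℝ) + 3 : ℝ) : ℂ).re
      rw [Complex.ofReal_re]
      linarith) (by
      have h1 : {s : ℂ | (m : ℝ) + 1 < s.re} ∈ 𝓝 (((m : ℝ) + 3 : ℝ) : ℂ) :=
        (isOpen_lt continuous_const Complex.continuous_re).mem_nhds (by
          show (m : ℝ) + 1 < (((m : ℝ) + 3 : ℝ) : ℂ).re
          rw [Complex.ofReal_re]
          linarith)
      filter_upwards [h1] with s hs
      rw [hL2 s hs, hser s])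
  intro s hs
  rw [hser s]
  exact heq hs

end

/-- existence of the `L`-function as an entire function -/
theorem lfun_of (a b : ℤ) (hab : 4 * a ^ 3 + 27 * b ^ 2 ≠ 0) {ε c : ℕ → ℝ} (h : WT ε c)
    {C q : ℝ} {m : ℕ} (hC : 0 ≤ C)
    (hc : ∀ n : ℕ, |c n| ≤ C * (n : ℝ) ^ m) (hq : 0 < q) (w : ℂ) (hw : w ≠ 0)
    (hfe : ∀ t : ℝ, 0 < t → ∑' n : ℕ, (c n : ℂ) * cexp (-(2 * Real.pi * n * (1 / (t : ℂ)) / (q : ℝ))) =
      w * (t : ℂ) ^ 2 * ∑' n : ℕ, (c n : ℂ) * cexp (-(2 * Real.pi * n * (t : ℂ) / (q : ℝ))))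
    (hap : ∀ p : ℕ, p.Prime → ¬ (p : ℤ) ∣ 2 * (4 * a ^ 3 + 27 * b ^ 2) →
      ε p = 1 ∧ c p = ap a b p) :
    ∃ F : ℂ → ℂ, IsLFun a b F := by
  obtain ⟨L, hL, hL2⟩ := entire h hC hc hq w hw hfe
  set B : Finset ℕ := (2 * (4 * a ^ 3 + 27 * b ^ 2)).natAbs.primeFactors with hB
  have hD : (2 * (4 * a ^ 3 + 27 * b ^ 2)).natAbs ≠ 0 := by
    rw [Int.natAbs_ne_zero]
    exact mul_ne_zero two_ne_zero hab
  have hBmem : ∀ p : ℕ, p ∈ B ↔ p.Prime ∧ (p : ℤ) ∣ 2 * (4 * a ^ 3 + 27 * b ^ 2) := by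
    intro p
    rw [hB, Nat.mem_primeFactors, Int.natCast_dvd]
    tauto
  have hdvd : ∀ p : ℕ, (p : ℤ) ∣ 2 * (-4 * a ^ 3 - 27 * b ^ 2) ↔
      (p : ℤ) ∣ 2 * (4 * a ^ 3 + 27 * b ^ 2) := by
    intro p
    rw [show 2 * (-4 * a ^ 3 - 27 * b ^ 2) = -(2 * (4 * a ^ 3 + 27 * b ^ 2)) by ring, dvd_neg]
  refine ⟨fun s => L s * ∏ p ∈ B, fac ε c p s, ?_, ?_⟩
  · refine hL.mul ?_
    intro s
    exact DifferentiableAt.fun_finsetProd fun p hp => fac_diff ε c p ((hBmem p).1 hp).1 s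
  · intro s hs
    have h1 := euler h hs
    rw [← hL2 s hs] at h1
    have h2 : HasProd (fun p : Nat.Primes => (fun p : ℕ => (fac ε c p s)⁻¹) (p : ℕ)) (L s) := h1
    have h3 : HasProd ({p : ℕ | p.Prime}.mulIndicator (fun p : ℕ => (fac ε c p s)⁻¹)) (L s) :=
      (hasProd_subtype_iff_mulIndicator (s := {p : ℕ | p.Prime})
        (f := fun p : ℕ => (fac ε c p s)⁻¹)).1 h2
    have h4 : HasProd (fun p : ℕ => if p ∈ B then fac ε c p s else 1) (∏ p ∈ B, fac ε c p s) := by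
      have h5 : HasProd (fun p : ℕ => if p ∈ B then fac ε c p s else 1)
          (∏ p ∈ B, if p ∈ B then fac ε c p s else 1) :=
        hasProd_prod_of_ne_finset_one (fun p hp => by simp [hp])
      convert h5 using 1
      exact Finset.prod_congr rfl fun p hp => by simp [hp]
    have h6 := h3.mul h4
    refine h6.congr_fun fun p => ?_
    by_cases hp : p.Prime
    · by_cases hpB : p ∈ B
      · have : ¬ (p.Prime ∧ ¬ ((p : ℤ) ∣ 2 * (-4 * a ^ 3 - 27 * b ^ 2))) := by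
          rw [hdvd]
          have := ((hBmem p).1 hpB).2
          tauto
        rw [if_neg this]
        simp only [Set.mulIndicator, Set.mem_ofPred_eq, hp, if_true, hpB]
        exact (inv_mul_cancel₀ (fac_ne_zero h hs hp)).symm
      · have hnd : ¬ ((p : ℤ) ∣ 2 * (4 * a ^ 3 + 27 * b ^ 2)) := by
          intro h
          exact hpB ((hBmem p).2 ⟨hp, h⟩)
        have : (p.Prime ∧ ¬ ((p : ℤ) ∣ 2 * (-4 * a ^ 3 - 27 * b ^ 2))) := by
          rw [hdvd]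
          exact ⟨hp, hnd⟩
        rw [if_pos this]
        simp only [Set.mulIndicator, Set.mem_ofPred_eq, hp, if_true, hpB, if_false, mul_one]
        obtain ⟨h7, h8⟩ := hap p hp hnd
        unfold fac
        rw [h7, h8]
        simp only [ap]
        push_cast
        rw [one_mul]
    · have hpB : p ∉ B := fun h => hp ((hBmem p).1 h).1
      simp [Set.mulIndicator, hp, hpB]

end Pool.Agent.Y153.QT
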